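import Pool.Agent.Helper6.CS.Goals1

/-!
# Project CS (MP_81e84b_lc), packet CS-CDF (helper90)
-/

set_option autoImplicit false

namespace Pool.Agent.Helper90.CS

open Pool.Agent.Helper6.CS

set_option synthInstance.maxSize 1000000000 in
theorem t_CDF (hB : G_BND) : G_CDF := by
  intro M _ L N
  obtain ⟨K, hK⟩ := hB M L N
  constructor
  · intro F hF
    obtain ⟨h, hh⟩ := ev_exists (fun c : M => F (dec c)) K
    refine ⟨h, fun a ha hl => ?_⟩
    unfold apn
    rw [hh _ (hK a ha hl), dec_cd]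
  · intro F hF
    obtain ⟨h, hh⟩ := ev_exists (fun c : M => (Cod.cd (F (dec c)) : M)) K
    refine ⟨h, fun a ha hl => ?_⟩
    unfold apw
    rw [hh _ (hK a ha hl), dec_cd, dec_cd]

end Pool.Agent.Helper90.CS
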